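import Mathlib

/-!
# MP_2f9b3f_lc: an extreme point with a contextual entropy function

Four variables `0, 1, 2, 3` with three outcomes each, marginal scenario with the facets
`{0,1}, {1,2}, {0,2}, {0,3}, {2,3}`.  The tables of `{0,1}`, `{1,2}` and `{0,3}` are the diagonal
matrix with entries `1/4, 1/4, 1/2`, the table of `{2,3}` is the same after exchanging the outcomes
`0, 1` of one variable, and the table of `{0,2}` has the four entries `1/4` at
`(0,2), (1,2), (2,0), (2,1)`.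
-/

namespace Pool.Agent.Results.MP_2f9b3f_lc.ContextualVertex

/-- A marginal scenario: a family of subsets of `[n]` closed under taking subsets and containing
`∅` and every singleton. -/
def IsScenario {n : ℕ} (M : Set (Finset (Fin n))) : Prop :=
  ∅ ∈ M ∧ (∀ i, {i} ∈ M) ∧ ∀ S ∈ M, ∀ T ⊆ S, T ∈ M

/-- Families of real functions on the sets `O_S = ∏_{i ∈ S} O_i`, `S ∈ M`. -/
abbrev Family {n : ℕ} (M : Set (Finset (Fin n))) (O : Fin n → Type) : Type :=
  (S : M) → ((i : S.1) → O i) → ℝ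

/-- The polytope `P(M, O)` of marginal models: every `p_S` is a probability distribution on `O_S`,
and for `T ⊆ S` in `M` the marginal of `p_S` on `O_T` is `p_T`. -/
def models {n : ℕ} (M : Set (Finset (Fin n))) (O : Fin n → Type) [∀ i, Fintype (O i)]
    [∀ i, DecidableEq (O i)] : Set (Family M O) :=
  {p | (∀ S x, 0 ≤ p S x) ∧ (∀ S, ∑ x, p S x = 1) ∧
    ∀ (S T : M) (h : T.1 ⊆ S.1) (x : (i : T.1) → O i),
      ∑ y with Finset.restrict₂ (π := O) h y = x, p S y = p T x}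

/-- The entropy function of a marginal model: the Shannon entropy of `p_S` (natural logarithm). -/
noncomputable def entropy {n : ℕ} {M : Set (Finset (Fin n))} {O : Fin n → Type}
    [∀ i, Fintype (O i)] (p : Family M O) (S : M) : ℝ :=
  ∑ x, Real.negMulLog (p S x)

/-- Polymatroids on `[n]`. -/
def IsPolymatroid {n : ℕ} (f : Finset (Fin n) → ℝ) : Prop :=
  f ∅ = 0 ∧ (∀ S T, S ⊆ T → f S ≤ f T) ∧ ∀ S T, f (S ∪ T) + f (S ∩ T) ≤ f S + f T

/-! ### The example -/

/-- The members of the scenario. -/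
def L : Finset (Finset (Fin 4)) :=
  {∅, {0}, {1}, {2}, {3}, {0, 1}, {1, 2}, {0, 2}, {0, 3}, {2, 3}}

/-- The scenario. -/
def M : Set (Finset (Fin 4)) := {S | S ∈ L}

/-- Three outcomes for every variable. -/
abbrev O : Fin 4 → Type := fun _ => Fin 3

theorem scenario : IsScenario M := by
  refine ⟨?_, ?_, ?_⟩
  · show ∅ ∈ L
    decide
  · intro i
    show {i} ∈ L
    revert i
    decide
  · intro S hS T hT
    have h : ∀ S ∈ L, ∀ T ∈ S.powerset, T ∈ L := by decide
    exact h S hS T (Finset.mem_powerset.2 hT)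

/-- Restriction of a full assignment. -/
def res (S : Finset (Fin 4)) (z : Fin 4 → Fin 3) : (i : S) → Fin 3 := fun i => z i

/-- The ten points of a signed joint measure. -/
def pts : Fin 10 → (Fin 4 → Fin 3) :=
  ![![2, 1, 2, 0], ![0, 2, 2, 0], ![2, 2, 0, 1], ![2, 0, 2, 1], ![2, 2, 2, 2], ![1, 1, 2, 1],
    ![0, 2, 0, 2], ![2, 1, 1, 0], ![2, 0, 2, 2], ![0, 0, 0, 2]]

/-- The ten weights of a signed joint measure. -/
def cf : Fin 10 → ℤ := ![-1, 1, 1, -1, 1, 1, -1, 1, 1, 1]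

/-- Four times the marginals of the signed joint measure. -/
def Q (S : Finset (Fin 4)) (x : (i : S) → Fin 3) : ℤ :=
  ∑ k, if res S (pts k) = x then cf k else 0

/-- The extreme point. -/
noncomputable def P : Family M O := fun S x => (Q S.1 x : ℝ) / 4

theorem Q_nonneg : ∀ S ∈ L, ∀ x, 0 ≤ Q S x := by
  decide +kernel

theorem Q_sum (S : Finset (Fin 4)) : ∑ x, Q S x = 4 := by
  unfold Q
  rw [Finset.sum_comm]
  simp only [Finset.sum_ite_eq, Finset.mem_univ, if_true]
  decide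

theorem Q_marg (S T : Finset (Fin 4)) (h : T ⊆ S) (x : (i : T) → Fin 3) :
    ∑ y with Finset.restrict₂ (π := O) h y = x, Q S y = Q T x := by
  unfold Q
  rw [Finset.sum_comm]
  refine Finset.sum_congr rfl fun k _ => ?_
  rw [Finset.sum_ite_eq]
  simp only [Finset.mem_filter, Finset.mem_univ, true_and]
  rfl

theorem P_mem : P ∈ models M O := by
  refine ⟨?_, ?_, ?_⟩
  · intro S x
    have := Q_nonneg S.1 S.2 x
    have h2 : (0 : ℝ) ≤ (Q S.1 x : ℝ) := by exact_mod_cast this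
    exact div_nonneg h2 (by norm_num)
  · intro S
    show ∑ x, (Q S.1 x : ℝ) / 4 = 1
    rw [← Finset.sum_div]
    have := Q_sum S.1
    have h2 : (∑ x, (Q S.1 x : ℝ)) = 4 := by exact_mod_cast this
    rw [h2]; norm_num
  · intro S T h x
    show ∑ y with Finset.restrict₂ (π := O) h y = x, (Q S.1 y : ℝ) / 4 = (Q T.1 x : ℝ) / 4
    rw [← Finset.sum_div]
    have := Q_marg S.1 T.1 h x
    have h2 : (∑ y with Finset.restrict₂ (π := O) h y = x, (Q S.1 y : ℝ)) = (Q T.1 x : ℝ) := by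
      exact_mod_cast this
    rw [h2]

/-- Marginals by summation over one variable. -/
theorem marg {u : Family M O} (hu : u ∈ models M O) (S T : M) (j : Fin 4) (hj : j ∈ S.1)
    (hT : ∀ i, i ∈ T.1 ↔ i ≠ j ∧ i ∈ S.1) (z : Fin 4 → Fin 3) :
    u T (res T.1 z) = ∑ a, u S (res S.1 (Function.update z j a)) := by
  have hTS : T.1 ⊆ S.1 := fun i hi => ((hT i).1 hi).2
  rw [← hu.2.2 S T hTS (res T.1 z)]
  have himg : (Finset.univ.filter fun y : (i : S.1) → O i =>
      Finset.restrict₂ (π := O) hTS y = res T.1 z)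
      = Finset.univ.image (fun a : Fin 3 => res S.1 (Function.update z j a)) := by
    ext y
    simp only [Finset.mem_filter, Finset.mem_univ, true_and, Finset.mem_image]
    constructor
    · intro h
      refine ⟨y ⟨j, hj⟩, ?_⟩
      funext i
      by_cases hij : i.1 = j
      · have : i = ⟨j, hj⟩ := Subtype.ext hij
        subst this
        simp [res]
      · have hi : i.1 ∈ T.1 := (hT i.1).2 ⟨hij, i.2⟩
        have := congrFun h ⟨i.1, hi⟩
        simp only [res, Function.update_of_ne hij]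
        simpa [res] using this.symm
    · rintro ⟨a, rfl⟩
      funext i
      have hij : i.1 ≠ j := ((hT i.1).1 i.2).1
      simp [res, Function.update_of_ne hij]
  rw [himg, Finset.sum_image]
  intro a _ b _ hab
  have := congrFun hab ⟨j, hj⟩
  simpa [res] using this

theorem upd0 (a b c d x : Fin 3) : Function.update ![a, b, c, d] 0 x = ![x, b, c, d] := by
  ext i; fin_cases i <;> rfl
theorem upd1 (a b c d x : Fin 3) : Function.update ![a, b, c, d] 1 x = ![a, x, c, d] := by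
  ext i; fin_cases i <;> rfl
theorem upd2 (a b c d x : Fin 3) : Function.update ![a, b, c, d] 2 x = ![a, b, x, d] := by
  ext i; fin_cases i <;> rfl
theorem upd3 (a b c d x : Fin 3) : Function.update ![a, b, c, d] 3 x = ![a, b, c, x] := by
  ext i; fin_cases i <;> rfl

/-- The member `{0}` of the scenario. -/
def m0 : M := ⟨{0}, show {0} ∈ L by decide⟩
/-- The member `{1}` of the scenario. -/
def m1 : M := ⟨{1}, show {1} ∈ L by decide⟩
/-- The member `{2}` of the scenario. -/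
def m2 : M := ⟨{2}, show {2} ∈ L by decide⟩
/-- The member `{3}` of the scenario. -/
def m3 : M := ⟨{3}, show {3} ∈ L by decide⟩
/-- The member `{0, 1}` of the scenario. -/
def m01 : M := ⟨{0, 1}, show {0, 1} ∈ L by decide⟩
/-- The member `{1, 2}` of the scenario. -/
def m12 : M := ⟨{1, 2}, show {1, 2} ∈ L by decide⟩
/-- The member `{0, 2}` of the scenario. -/
def m02 : M := ⟨{0, 2}, show {0, 2} ∈ L by decide⟩
/-- The member `{0, 3}` of the scenario. -/
def m03 : M := ⟨{0, 3}, show {0, 3} ∈ L by decide⟩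
/-- The member `{2, 3}` of the scenario. -/
def m23 : M := ⟨{2, 3}, show {2, 3} ∈ L by decide⟩
/-- The member `∅` of the scenario. -/
def me : M := ⟨∅, show ∅ ∈ L by decide⟩

/-- Value of a family at the restriction of a full assignment. -/
def ev (u : Family M O) (S : M) (a b c d : Fin 3) : ℝ := u S (res S.1 ![a, b, c, d])

theorem ev_eq {u : Family M O} (h0 : ∀ S x, Q S.1 x = 0 → u S x = 0) (S : M) (a b c d : Fin 3)
    (h : Q S.1 (res S.1 ![a, b, c, d]) = 0) : ev u S a b c d = 0 := h0 S _ h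

set_option maxHeartbeats 4000000 in
theorem values {u : Family M O} (hu : u ∈ models M O) (h0 : ∀ S x, Q S.1 x = 0 → u S x = 0) :
    ev u m0 0 0 0 0 = 1 / 4 ∧
    ev u m0 1 0 0 0 = 1 / 4 ∧
    ev u m0 2 0 0 0 = 2 / 4 ∧
    ev u m1 0 0 0 0 = 1 / 4 ∧
    ev u m1 0 1 0 0 = 1 / 4 ∧
    ev u m1 0 2 0 0 = 2 / 4 ∧
    ev u m2 0 0 0 0 = 1 / 4 ∧
    ev u m2 0 0 1 0 = 1 / 4 ∧
    ev u m2 0 0 2 0 = 2 / 4 ∧
    ev u m3 0 0 0 0 = 1 / 4 ∧
    ev u m3 0 0 0 1 = 1 / 4 ∧
    ev u m3 0 0 0 2 = 2 / 4 ∧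
    ev u m01 0 0 0 0 = 1 / 4 ∧
    ev u m01 1 1 0 0 = 1 / 4 ∧
    ev u m01 2 2 0 0 = 2 / 4 ∧
    ev u m12 0 0 0 0 = 1 / 4 ∧
    ev u m12 0 1 1 0 = 1 / 4 ∧
    ev u m12 0 2 2 0 = 2 / 4 ∧
    ev u m02 0 0 2 0 = 1 / 4 ∧
    ev u m02 1 0 2 0 = 1 / 4 ∧
    ev u m02 2 0 0 0 = 1 / 4 ∧
    ev u m02 2 0 1 0 = 1 / 4 ∧
    ev u m03 0 0 0 0 = 1 / 4 ∧
    ev u m03 1 0 0 1 = 1 / 4 ∧
    ev u m03 2 0 0 2 = 2 / 4 ∧
    ev u m23 0 0 0 1 = 1 / 4 ∧
    ev u m23 0 0 1 0 = 1 / 4 ∧
    ev u m23 0 0 2 2 = 2 / 4 := by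
  have z0101 : ev u m01 0 1 0 0 = 0 := ev_eq h0 _ _ _ _ _ (by decide +kernel)
  have z0102 : ev u m01 0 2 0 0 = 0 := ev_eq h0 _ _ _ _ _ (by decide +kernel)
  have z0110 : ev u m01 1 0 0 0 = 0 := ev_eq h0 _ _ _ _ _ (by decide +kernel)
  have z0112 : ev u m01 1 2 0 0 = 0 := ev_eq h0 _ _ _ _ _ (by decide +kernel)
  have z0120 : ev u m01 2 0 0 0 = 0 := ev_eq h0 _ _ _ _ _ (by decide +kernel)
  have z0121 : ev u m01 2 1 0 0 = 0 := ev_eq h0 _ _ _ _ _ (by decide +kernel)
  have z1201 : ev u m12 0 0 1 0 = 0 := ev_eq h0 _ _ _ _ _ (by decide +kernel)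
  have z1202 : ev u m12 0 0 2 0 = 0 := ev_eq h0 _ _ _ _ _ (by decide +kernel)
  have z1210 : ev u m12 0 1 0 0 = 0 := ev_eq h0 _ _ _ _ _ (by decide +kernel)
  have z1212 : ev u m12 0 1 2 0 = 0 := ev_eq h0 _ _ _ _ _ (by decide +kernel)
  have z1220 : ev u m12 0 2 0 0 = 0 := ev_eq h0 _ _ _ _ _ (by decide +kernel)
  have z1221 : ev u m12 0 2 1 0 = 0 := ev_eq h0 _ _ _ _ _ (by decide +kernel)
  have z0200 : ev u m02 0 0 0 0 = 0 := ev_eq h0 _ _ _ _ _ (by decide +kernel)
  have z0201 : ev u m02 0 0 1 0 = 0 := ev_eq h0 _ _ _ _ _ (by decide +kernel)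
  have z0210 : ev u m02 1 0 0 0 = 0 := ev_eq h0 _ _ _ _ _ (by decide +kernel)
  have z0211 : ev u m02 1 0 1 0 = 0 := ev_eq h0 _ _ _ _ _ (by decide +kernel)
  have z0222 : ev u m02 2 0 2 0 = 0 := ev_eq h0 _ _ _ _ _ (by decide +kernel)
  have z0301 : ev u m03 0 0 0 1 = 0 := ev_eq h0 _ _ _ _ _ (by decide +kernel)
  have z0302 : ev u m03 0 0 0 2 = 0 := ev_eq h0 _ _ _ _ _ (by decide +kernel)
  have z0310 : ev u m03 1 0 0 0 = 0 := ev_eq h0 _ _ _ _ _ (by decide +kernel)
  have z0312 : ev u m03 1 0 0 2 = 0 := ev_eq h0 _ _ _ _ _ (by decide +kernel)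
  have z0320 : ev u m03 2 0 0 0 = 0 := ev_eq h0 _ _ _ _ _ (by decide +kernel)
  have z0321 : ev u m03 2 0 0 1 = 0 := ev_eq h0 _ _ _ _ _ (by decide +kernel)
  have z2300 : ev u m23 0 0 0 0 = 0 := ev_eq h0 _ _ _ _ _ (by decide +kernel)
  have z2302 : ev u m23 0 0 0 2 = 0 := ev_eq h0 _ _ _ _ _ (by decide +kernel)
  have z2311 : ev u m23 0 0 1 1 = 0 := ev_eq h0 _ _ _ _ _ (by decide +kernel)
  have z2312 : ev u m23 0 0 1 2 = 0 := ev_eq h0 _ _ _ _ _ (by decide +kernel)
  have z2320 : ev u m23 0 0 2 0 = 0 := ev_eq h0 _ _ _ _ _ (by decide +kernel)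
  have z2321 : ev u m23 0 0 2 1 = 0 := ev_eq h0 _ _ _ _ _ (by decide +kernel)
  have e0100 : ev u m0 0 0 0 0 = ev u m01 0 0 0 0 + ev u m01 0 1 0 0 + ev u m01 0 2 0 0 := by
    have h := marg hu m01 m0 1 (by decide) (by decide) ![0, 0, 0, 0]
    simp only [upd1, Fin.sum_univ_three] at h
    exact h
  have e0101 : ev u m0 1 0 0 0 = ev u m01 1 0 0 0 + ev u m01 1 1 0 0 + ev u m01 1 2 0 0 := by
    have h := marg hu m01 m0 1 (by decide) (by decide) ![1, 0, 0, 0]
    simp only [upd1, Fin.sum_univ_three] at h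
    exact h
  have e0102 : ev u m0 2 0 0 0 = ev u m01 2 0 0 0 + ev u m01 2 1 0 0 + ev u m01 2 2 0 0 := by
    have h := marg hu m01 m0 1 (by decide) (by decide) ![2, 0, 0, 0]
    simp only [upd1, Fin.sum_univ_three] at h
    exact h
  have e0110 : ev u m1 0 0 0 0 = ev u m01 0 0 0 0 + ev u m01 1 0 0 0 + ev u m01 2 0 0 0 := by
    have h := marg hu m01 m1 0 (by decide) (by decide) ![0, 0, 0, 0]
    simp only [upd0, Fin.sum_univ_three] at h
    exact h
  have e0111 : ev u m1 0 1 0 0 = ev u m01 0 1 0 0 + ev u m01 1 1 0 0 + ev u m01 2 1 0 0 := by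
    have h := marg hu m01 m1 0 (by decide) (by decide) ![0, 1, 0, 0]
    simp only [upd0, Fin.sum_univ_three] at h
    exact h
  have e0112 : ev u m1 0 2 0 0 = ev u m01 0 2 0 0 + ev u m01 1 2 0 0 + ev u m01 2 2 0 0 := by
    have h := marg hu m01 m1 0 (by decide) (by decide) ![0, 2, 0, 0]
    simp only [upd0, Fin.sum_univ_three] at h
    exact h
  have e1210 : ev u m1 0 0 0 0 = ev u m12 0 0 0 0 + ev u m12 0 0 1 0 + ev u m12 0 0 2 0 := by
    have h := marg hu m12 m1 2 (by decide) (by decide) ![0, 0, 0, 0]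
    simp only [upd2, Fin.sum_univ_three] at h
    exact h
  have e1211 : ev u m1 0 1 0 0 = ev u m12 0 1 0 0 + ev u m12 0 1 1 0 + ev u m12 0 1 2 0 := by
    have h := marg hu m12 m1 2 (by decide) (by decide) ![0, 1, 0, 0]
    simp only [upd2, Fin.sum_univ_three] at h
    exact h
  have e1212 : ev u m1 0 2 0 0 = ev u m12 0 2 0 0 + ev u m12 0 2 1 0 + ev u m12 0 2 2 0 := by
    have h := marg hu m12 m1 2 (by decide) (by decide) ![0, 2, 0, 0]
    simp only [upd2, Fin.sum_univ_three] at h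
    exact h
  have e1220 : ev u m2 0 0 0 0 = ev u m12 0 0 0 0 + ev u m12 0 1 0 0 + ev u m12 0 2 0 0 := by
    have h := marg hu m12 m2 1 (by decide) (by decide) ![0, 0, 0, 0]
    simp only [upd1, Fin.sum_univ_three] at h
    exact h
  have e1221 : ev u m2 0 0 1 0 = ev u m12 0 0 1 0 + ev u m12 0 1 1 0 + ev u m12 0 2 1 0 := by
    have h := marg hu m12 m2 1 (by decide) (by decide) ![0, 0, 1, 0]
    simp only [upd1, Fin.sum_univ_three] at h
    exact h
  have e1222 : ev u m2 0 0 2 0 = ev u m12 0 0 2 0 + ev u m12 0 1 2 0 + ev u m12 0 2 2 0 := by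
    have h := marg hu m12 m2 1 (by decide) (by decide) ![0, 0, 2, 0]
    simp only [upd1, Fin.sum_univ_three] at h
    exact h
  have e0200 : ev u m0 0 0 0 0 = ev u m02 0 0 0 0 + ev u m02 0 0 1 0 + ev u m02 0 0 2 0 := by
    have h := marg hu m02 m0 2 (by decide) (by decide) ![0, 0, 0, 0]
    simp only [upd2, Fin.sum_univ_three] at h
    exact h
  have e0201 : ev u m0 1 0 0 0 = ev u m02 1 0 0 0 + ev u m02 1 0 1 0 + ev u m02 1 0 2 0 := by
    have h := marg hu m02 m0 2 (by decide) (by decide) ![1, 0, 0, 0]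
    simp only [upd2, Fin.sum_univ_three] at h
    exact h
  have e0202 : ev u m0 2 0 0 0 = ev u m02 2 0 0 0 + ev u m02 2 0 1 0 + ev u m02 2 0 2 0 := by
    have h := marg hu m02 m0 2 (by decide) (by decide) ![2, 0, 0, 0]
    simp only [upd2, Fin.sum_univ_three] at h
    exact h
  have e0220 : ev u m2 0 0 0 0 = ev u m02 0 0 0 0 + ev u m02 1 0 0 0 + ev u m02 2 0 0 0 := by
    have h := marg hu m02 m2 0 (by decide) (by decide) ![0, 0, 0, 0]
    simp only [upd0, Fin.sum_univ_three] at h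
    exact h
  have e0221 : ev u m2 0 0 1 0 = ev u m02 0 0 1 0 + ev u m02 1 0 1 0 + ev u m02 2 0 1 0 := by
    have h := marg hu m02 m2 0 (by decide) (by decide) ![0, 0, 1, 0]
    simp only [upd0, Fin.sum_univ_three] at h
    exact h
  have e0222 : ev u m2 0 0 2 0 = ev u m02 0 0 2 0 + ev u m02 1 0 2 0 + ev u m02 2 0 2 0 := by
    have h := marg hu m02 m2 0 (by decide) (by decide) ![0, 0, 2, 0]
    simp only [upd0, Fin.sum_univ_three] at h
    exact h
  have e0300 : ev u m0 0 0 0 0 = ev u m03 0 0 0 0 + ev u m03 0 0 0 1 + ev u m03 0 0 0 2 := by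
    have h := marg hu m03 m0 3 (by decide) (by decide) ![0, 0, 0, 0]
    simp only [upd3, Fin.sum_univ_three] at h
    exact h
  have e0301 : ev u m0 1 0 0 0 = ev u m03 1 0 0 0 + ev u m03 1 0 0 1 + ev u m03 1 0 0 2 := by
    have h := marg hu m03 m0 3 (by decide) (by decide) ![1, 0, 0, 0]
    simp only [upd3, Fin.sum_univ_three] at h
    exact h
  have e0302 : ev u m0 2 0 0 0 = ev u m03 2 0 0 0 + ev u m03 2 0 0 1 + ev u m03 2 0 0 2 := by
    have h := marg hu m03 m0 3 (by decide) (by decide) ![2, 0, 0, 0]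
    simp only [upd3, Fin.sum_univ_three] at h
    exact h
  have e0330 : ev u m3 0 0 0 0 = ev u m03 0 0 0 0 + ev u m03 1 0 0 0 + ev u m03 2 0 0 0 := by
    have h := marg hu m03 m3 0 (by decide) (by decide) ![0, 0, 0, 0]
    simp only [upd0, Fin.sum_univ_three] at h
    exact h
  have e0331 : ev u m3 0 0 0 1 = ev u m03 0 0 0 1 + ev u m03 1 0 0 1 + ev u m03 2 0 0 1 := by
    have h := marg hu m03 m3 0 (by decide) (by decide) ![0, 0, 0, 1]
    simp only [upd0, Fin.sum_univ_three] at h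
    exact h
  have e0332 : ev u m3 0 0 0 2 = ev u m03 0 0 0 2 + ev u m03 1 0 0 2 + ev u m03 2 0 0 2 := by
    have h := marg hu m03 m3 0 (by decide) (by decide) ![0, 0, 0, 2]
    simp only [upd0, Fin.sum_univ_three] at h
    exact h
  have e2320 : ev u m2 0 0 0 0 = ev u m23 0 0 0 0 + ev u m23 0 0 0 1 + ev u m23 0 0 0 2 := by
    have h := marg hu m23 m2 3 (by decide) (by decide) ![0, 0, 0, 0]
    simp only [upd3, Fin.sum_univ_three] at h
    exact h
  have e2321 : ev u m2 0 0 1 0 = ev u m23 0 0 1 0 + ev u m23 0 0 1 1 + ev u m23 0 0 1 2 := by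
    have h := marg hu m23 m2 3 (by decide) (by decide) ![0, 0, 1, 0]
    simp only [upd3, Fin.sum_univ_three] at h
    exact h
  have e2322 : ev u m2 0 0 2 0 = ev u m23 0 0 2 0 + ev u m23 0 0 2 1 + ev u m23 0 0 2 2 := by
    have h := marg hu m23 m2 3 (by decide) (by decide) ![0, 0, 2, 0]
    simp only [upd3, Fin.sum_univ_three] at h
    exact h
  have e2330 : ev u m3 0 0 0 0 = ev u m23 0 0 0 0 + ev u m23 0 0 1 0 + ev u m23 0 0 2 0 := by
    have h := marg hu m23 m3 2 (by decide) (by decide) ![0, 0, 0, 0]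
    simp only [upd2, Fin.sum_univ_three] at h
    exact h
  have e2331 : ev u m3 0 0 0 1 = ev u m23 0 0 0 1 + ev u m23 0 0 1 1 + ev u m23 0 0 2 1 := by
    have h := marg hu m23 m3 2 (by decide) (by decide) ![0, 0, 0, 1]
    simp only [upd2, Fin.sum_univ_three] at h
    exact h
  have e2332 : ev u m3 0 0 0 2 = ev u m23 0 0 0 2 + ev u m23 0 0 1 2 + ev u m23 0 0 2 2 := by
    have h := marg hu m23 m3 2 (by decide) (by decide) ![0, 0, 0, 2]
    simp only [upd2, Fin.sum_univ_three] at h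
    exact h
  have en : 1 = ev u m0 0 0 0 0 + ev u m0 1 0 0 0 + ev u m0 2 0 0 0 := by
    have h := marg hu m0 me 0 (by decide) (by decide) ![0, 0, 0, 0]
    simp only [upd0, Fin.sum_univ_three] at h
    have h1 := hu.2.1 me
    have h2 : (Finset.univ : Finset ((i : me.1) → Fin 3)) = {res me.1 ![0, 0, 0, 0]} := by
      decide +kernel
    have h3 : ∑ x, u me x = u me (res me.1 ![0, 0, 0, 0]) := by
      rw [h2, Finset.sum_singleton]
    rw [h3] at h1
    rw [← h1]
    exact h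
  refine ⟨?_, ?_, ?_, ?_, ?_, ?_, ?_, ?_, ?_, ?_, ?_, ?_, ?_, ?_, ?_, ?_, ?_, ?_, ?_, ?_, ?_, ?_, ?_, ?_, ?_, ?_, ?_, ?_⟩ <;> linarith

theorem empty_val {u : Family M O} (hu : u ∈ models M O) (x : (i : me.1) → Fin 3) :
    u me x = 1 := by
  have h1 := hu.2.1 me
  have h2 : ∀ x : (i : me.1) → Fin 3, Finset.univ = {x} := by decide +kernel
  rw [h2 x, Finset.sum_singleton] at h1
  exact h1

set_option maxHeartbeats 4000000 in
theorem eq_P {u : Family M O} (hu : u ∈ models M O) (h0 : ∀ S x, Q S.1 x = 0 → u S x = 0) :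
    u = P := by
  have hP0 : ∀ (S : M) x, Q S.1 x = 0 → P S x = 0 := by
    intro S x h
    show (Q S.1 x : ℝ) / 4 = 0
    rw [h]; simp
  obtain ⟨hu00, hu01, hu02, hu10, hu11, hu12, hu20, hu21, hu22, hu30, hu31, hu32, hu0100, hu0111, hu0122, hu1200, hu1211, hu1222, hu0202, hu0212, hu0220, hu0221, hu0300, hu0311, hu0322, hu2301, hu2310, hu2322⟩ := values hu h0
  obtain ⟨hP00, hP01, hP02, hP10, hP11, hP12, hP20, hP21, hP22, hP30, hP31, hP32, hP0100, hP0111, hP0122, hP1200, hP1211, hP1222, hP0202, hP0212, hP0220, hP0221, hP0300, hP0311, hP0322, hP2301, hP2310, hP2322⟩ := values P_mem hP0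
  funext S x
  by_cases hx : Q S.1 x = 0
  · rw [h0 S x hx, hP0 S x hx]
  obtain ⟨S, hS⟩ := S
  have hS' : S = ∅ ∨ S = {0} ∨ S = {1} ∨ S = {2} ∨ S = {3} ∨ S = {0, 1} ∨ S = {1, 2} ∨
      S = {0, 2} ∨ S = {0, 3} ∨ S = {2, 3} := by
    have : S ∈ L := hS
    simpa [L] using this
  rcases hS' with rfl | rfl | rfl | rfl | rfl | rfl | rfl | rfl | rfl | rfl
  · exact (empty_val hu x).trans (empty_val P_mem x).symm
  · have h : ∀ x : (i : ({0} : Finset (Fin 4))) → Fin 3, Q {0} x ≠ 0 →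
      x = res {0} ![0, 0, 0, 0] ∨ x = res {0} ![1, 0, 0, 0] ∨ x = res {0} ![2, 0, 0, 0] := by
      decide +kernel
    rcases h x hx with rfl | rfl | rfl
    · exact hu00.trans hP00.symm
    · exact hu01.trans hP01.symm
    · exact hu02.trans hP02.symm
  · have h : ∀ x : (i : ({1} : Finset (Fin 4))) → Fin 3, Q {1} x ≠ 0 →
      x = res {1} ![0, 0, 0, 0] ∨ x = res {1} ![0, 1, 0, 0] ∨ x = res {1} ![0, 2, 0, 0] := by
      decide +kernel
    rcases h x hx with rfl | rfl | rfl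
    · exact hu10.trans hP10.symm
    · exact hu11.trans hP11.symm
    · exact hu12.trans hP12.symm
  · have h : ∀ x : (i : ({2} : Finset (Fin 4))) → Fin 3, Q {2} x ≠ 0 →
      x = res {2} ![0, 0, 0, 0] ∨ x = res {2} ![0, 0, 1, 0] ∨ x = res {2} ![0, 0, 2, 0] := by
      decide +kernel
    rcases h x hx with rfl | rfl | rfl
    · exact hu20.trans hP20.symm
    · exact hu21.trans hP21.symm
    · exact hu22.trans hP22.symm
  · have h : ∀ x : (i : ({3} : Finset (Fin 4))) → Fin 3, Q {3} x ≠ 0 →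
      x = res {3} ![0, 0, 0, 0] ∨ x = res {3} ![0, 0, 0, 1] ∨ x = res {3} ![0, 0, 0, 2] := by
      decide +kernel
    rcases h x hx with rfl | rfl | rfl
    · exact hu30.trans hP30.symm
    · exact hu31.trans hP31.symm
    · exact hu32.trans hP32.symm
  · have h : ∀ x : (i : ({0, 1} : Finset (Fin 4))) → Fin 3, Q {0, 1} x ≠ 0 →
      x = res {0, 1} ![0, 0, 0, 0] ∨ x = res {0, 1} ![1, 1, 0, 0] ∨ x = res {0, 1} ![2, 2, 0, 0] := by
      decide +kernel
    rcases h x hx with rfl | rfl | rfl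
    · exact hu0100.trans hP0100.symm
    · exact hu0111.trans hP0111.symm
    · exact hu0122.trans hP0122.symm
  · have h : ∀ x : (i : ({1, 2} : Finset (Fin 4))) → Fin 3, Q {1, 2} x ≠ 0 →
      x = res {1, 2} ![0, 0, 0, 0] ∨ x = res {1, 2} ![0, 1, 1, 0] ∨ x = res {1, 2} ![0, 2, 2, 0] := by
      decide +kernel
    rcases h x hx with rfl | rfl | rfl
    · exact hu1200.trans hP1200.symm
    · exact hu1211.trans hP1211.symm
    · exact hu1222.trans hP1222.symm
  · have h : ∀ x : (i : ({0, 2} : Finset (Fin 4))) → Fin 3, Q {0, 2} x ≠ 0 →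
      x = res {0, 2} ![0, 0, 2, 0] ∨ x = res {0, 2} ![1, 0, 2, 0] ∨ x = res {0, 2} ![2, 0, 0, 0] ∨ x = res {0, 2} ![2, 0, 1, 0] := by
      decide +kernel
    rcases h x hx with rfl | rfl | rfl | rfl
    · exact hu0202.trans hP0202.symm
    · exact hu0212.trans hP0212.symm
    · exact hu0220.trans hP0220.symm
    · exact hu0221.trans hP0221.symm
  · have h : ∀ x : (i : ({0, 3} : Finset (Fin 4))) → Fin 3, Q {0, 3} x ≠ 0 →
      x = res {0, 3} ![0, 0, 0, 0] ∨ x = res {0, 3} ![1, 0, 0, 1] ∨ x = res {0, 3} ![2, 0, 0, 2] := by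
      decide +kernel
    rcases h x hx with rfl | rfl | rfl
    · exact hu0300.trans hP0300.symm
    · exact hu0311.trans hP0311.symm
    · exact hu0322.trans hP0322.symm
  · have h : ∀ x : (i : ({2, 3} : Finset (Fin 4))) → Fin 3, Q {2, 3} x ≠ 0 →
      x = res {2, 3} ![0, 0, 0, 1] ∨ x = res {2, 3} ![0, 0, 1, 0] ∨ x = res {2, 3} ![0, 0, 2, 2] := by
      decide +kernel
    rcases h x hx with rfl | rfl | rfl
    · exact hu2301.trans hP2301.symm
    · exact hu2310.trans hP2310.symm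
    · exact hu2322.trans hP2322.symm

theorem P_extreme : P ∈ (models M O).extremePoints ℝ := by
  refine ⟨P_mem, ?_⟩
  intro u hu v hv hP
  apply eq_P hu
  intro S x hx
  obtain ⟨a, b, ha, hb, _, hab⟩ := hP
  have h1 := congrFun (congrFun hab S) x
  have h2 : a * u S x + b * v S x = P S x := h1
  have h3 : P S x = 0 := by
    show (Q S.1 x : ℝ) / 4 = 0
    rw [hx]; simp
  rw [h3] at h2
  have hu0 := hu.1 S x
  have hv0 := hv.1 S x
  have h4 : 0 ≤ b * v S x := mul_nonneg hb.le hv0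
  have h5 : a * u S x ≤ 0 := by linarith
  by_contra hne
  have h6 : 0 < u S x := lt_of_le_of_ne hu0 (Ne.symm hne)
  have := mul_pos ha h6
  linarith

theorem negMulLog_quarter (q : ℤ) (h : q = 0 ∨ q = 1 ∨ q = 2) :
    Real.negMulLog ((q : ℝ) / 4) = if q = 0 then 0 else Real.log 2 / 2 := by
  have h4 : Real.log 4 = 2 * Real.log 2 := by
    rw [show (4 : ℝ) = 2 ^ 2 by norm_num, Real.log_pow]; norm_num
  rcases h with rfl | rfl | rfl
  · simp
  · simp only [Real.negMulLog]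
    rw [show (((1 : ℤ) : ℝ) / 4) = (4 : ℝ)⁻¹ by norm_num, Real.log_inv, h4]
    norm_num
    ring
  · simp only [Real.negMulLog]
    rw [show (((2 : ℤ) : ℝ) / 4) = (2 : ℝ)⁻¹ by norm_num, Real.log_inv]
    norm_num
    ring

theorem entropy_eq (S : M) (h : ∀ x, Q S.1 x = 0 ∨ Q S.1 x = 1 ∨ Q S.1 x = 2) (k : ℕ)
    (hk : (Finset.univ.filter fun x : (i : S.1) → Fin 3 => ¬ Q S.1 x = 0).card = k) :
    entropy P S = k * (Real.log 2 / 2) := by
  unfold entropy
  have : ∀ x, Real.negMulLog (P S x) = if Q S.1 x = 0 then 0 else Real.log 2 / 2 := fun x =>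
    negMulLog_quarter _ (h x)
  rw [Finset.sum_congr rfl fun x _ => this x, ← hk, Finset.sum_ite, Finset.sum_const_zero,
    zero_add, Finset.sum_const, nsmul_eq_mul]

/-- **Disproof of Q1.**  There are a marginal scenario, finite nonempty outcome sets and an extreme
point of the polytope of marginal models whose entropy function is not the restriction of a
polymatroid. -/
theorem result : ∃ (n : ℕ) (M : Set (Finset (Fin n))) (O : Fin n → Type)
    (_ : ∀ i, Fintype (O i)) (_ : ∀ i, DecidableEq (O i)) (p : Family M O),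
    IsScenario M ∧ (∀ i, Nonempty (O i)) ∧ p ∈ (models M O).extremePoints ℝ ∧
    ¬ ∃ f : Finset (Fin n) → ℝ, IsPolymatroid f ∧ ∀ S : M, f S.1 = entropy p S := by
  refine ⟨4, M, O, inferInstance, inferInstance, P, scenario, fun i => ⟨0⟩, P_extreme, ?_⟩
  rintro ⟨f, ⟨_, hmono, hsub⟩, hf⟩
  have e01 := entropy_eq m01 (by decide +kernel) 3 (by decide +kernel)
  have e12 := entropy_eq m12 (by decide +kernel) 3 (by decide +kernel)
  have e02 := entropy_eq m02 (by decide +kernel) 4 (by decide +kernel)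
  have e1 := entropy_eq m1 (by decide +kernel) 3 (by decide +kernel)
  have f01 : f {0, 1} = _ := (hf m01).trans e01
  have f12 : f {1, 2} = _ := (hf m12).trans e12
  have f02 : f {0, 2} = _ := (hf m02).trans e02
  have f1 : f {1} = _ := (hf m1).trans e1
  have h1 := hsub {0, 1} {1, 2}
  have hU : ({0, 1} : Finset (Fin 4)) ∪ {1, 2} = {0, 1, 2} := by decide
  have hI : ({0, 1} : Finset (Fin 4)) ∩ {1, 2} = {1} := by decide
  rw [hU, hI] at h1
  have h2 := hmono {0, 2} {0, 1, 2} (by decide)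
  have hl : 0 < Real.log 2 := Real.log_pos (by norm_num)
  rw [f01, f12, f1] at h1
  rw [f02] at h2
  push_cast at h1 h2
  linarith

end Pool.Agent.Results.MP_2f9b3f_lc.ContextualVertex
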